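import Mathlib
namespace Pool.Agent.H.MP_45ee41_an
open Real MeasureTheory Set Filter Topology

noncomputable def ei (a : ℝ) : ℂ := Complex.exp (Complex.I * a)

@[simp] lemma norm_ei (a : ℝ) : ‖ei a‖ = 1 := Complex.norm_exp_I_mul_ofReal a
lemma ei_add (a b : ℝ) : ei (a + b) = ei a * ei b := by
  simp [ei, mul_add, Complex.exp_add]
@[fun_prop] lemma cont_ei : Continuous ei := by unfold ei; fun_prop
@[fun_prop] lemma meas_ei : Measurable ei := cont_ei.measurable
lemma ei_sub (a b : ℝ) : ‖ei a - ei b‖ ≤ |a - b| := by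
  have : ei a - ei b = ei b * (ei (a - b) - 1) := by
    rw [mul_sub, ← ei_add]; simp
  rw [this, norm_mul, norm_ei, one_mul]
  exact Real.norm_exp_I_mul_ofReal_sub_one_le
lemma ei_re (a : ℝ) : (ei a).re = cos a := by
  rw [ei, mul_comm]; exact Complex.exp_ofReal_mul_I_re a
lemma ei_im (a : ℝ) : (ei a).im = sin a := by
  rw [ei, mul_comm]; exact Complex.exp_ofReal_mul_I_im a
lemma der_ei (a : ℝ) : HasDerivAt ei (ei a * Complex.I) a := by
  have := ((Complex.ofRealCLM.hasDerivAt (x := a)).const_mul Complex.I).cexp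
  exact this.congr_deriv (by simp [ei])

structure Nice (f : ℝ → ℂ) (K : ℝ) : Prop where
  c : Continuous f
  l : ∀ a b, ‖f a - f b‖ ≤ K * |a - b|
  s : ∀ y, 3 ≤ |y| → f y = 0

noncomputable def g (f : ℝ → ℂ) (x t : ℝ) : ℂ := (f (x - t) - f (x + t)) / t

variable {f : ℝ → ℂ} {K : ℝ}

lemma Nice.nn (h : Nice f K) : 0 ≤ K := by
  simpa using (norm_nonneg _).trans (h.l 1 0)

lemma Nice.d (h : Nice f K) (x : ℝ) {t : ℝ} (ht : 0 ≤ t) : ‖f (x - t) - f (x + t)‖ ≤ 2 * K * t := by
  refine (h.l _ _).trans (le_of_eq ?_)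
  rw [show x - t - (x + t) = -(2 * t) by ring, abs_neg, abs_of_nonneg (by positivity)]; ring

lemma Nice.g_bd (h : Nice f K) {x R : ℝ} (hx : |x| + 3 ≤ R) {t : ℝ} (ht : 0 < t) :
    ‖g f x t‖ ≤ (Iic R).indicator (fun _ => 2 * K) t := by
  by_cases h1 : t ∈ Iic R
  · rw [indicator_of_mem h1, g, norm_div, Complex.norm_real, Real.norm_of_nonneg ht.le,
      div_le_iff₀ ht]
    exact h.d x ht.le
  · have h2 : R < t := not_le.1 h1
    have := le_abs_self x
    have := neg_abs_le x
    rw [indicator_of_notMem h1, g, h.s _ (le_abs.2 (Or.inr (by linarith))),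
      h.s _ (le_abs.2 (Or.inl (by linarith)))]
    simp

lemma int_ind (R c : ℝ) : IntegrableOn ((Iic R).indicator fun _ => c) (Ioi (0:ℝ)) := by
  rw [IntegrableOn, integrable_indicator_iff measurableSet_Iic, IntegrableOn,
    Measure.restrict_restrict measurableSet_Iic, inter_comm, Ioi_inter_Iic]
  exact integrableOn_const (by simp)

lemma Nice.mg (h : Nice f K) (x : ℝ) : Measurable (g f x) := by
  have := h.c.measurable
  unfold g; fun_prop

lemma Nice.int (h : Nice f K) (x : ℝ) {a : ℝ → ℝ} (ha : Measurable a) :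
    IntegrableOn (fun t => ei (a t) * g f x t) (Ioi 0) := by
  have := h.mg x
  refine (int_ind (|x| + 3) (2 * K)).mono' (Measurable.aestronglyMeasurable (by fun_prop)) ?_
  filter_upwards [ae_restrict_mem measurableSet_Ioi] with t ht
  rw [norm_mul, norm_ei, one_mul]
  exact h.g_bd le_rfl ht

lemma Nice.pv (h : Nice f K) (e l x : ℝ) :
    Tendsto (fun δ : ℝ => ∫ y in {y | δ < |x - y| ∧ |x - y| < 1 / δ},
      ei (l * |x - y| ^ e) / ((x - y : ℝ) : ℂ) * f y) (𝓝[>] 0)
      (𝓝 (∫ t in Ioi 0, ei (l * t ^ e) * g f x t)) := by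
  have cov : AECover (volume.restrict (Ioi (0:ℝ))) (𝓝[>] (0:ℝ)) fun δ => Ioo δ (1 / δ) := by
    refine ⟨?_, fun _ => measurableSet_Ioo⟩
    filter_upwards [ae_restrict_mem measurableSet_Ioi] with t ht
    have ht' : 0 < t := ht
    filter_upwards [Ioo_mem_nhdsGT ht', Ioo_mem_nhdsGT (one_div_pos.2 ht')] with δ h1 h2
    exact ⟨h1.2, (lt_one_div ht' h1.1).2 h2.2⟩
  refine (cov.integral_tendsto_of_countably_generated
    (h.int x (a := fun t => l * t ^ e) (by fun_prop))).congr' ?_
  filter_upwards [Ioo_mem_nhdsGT (zero_lt_one' ℝ)] with δ hδ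
  have d0 := hδ.1
  have d1 : δ ≤ 1 / δ := by rw [le_div_iff₀ d0]; nlinarith [hδ.2]
  set k : ℝ → ℂ := fun y => ei (l * |x - y| ^ e) / ((x - y : ℝ) : ℂ) * f y with hk
  have ck : ∀ y, y ≠ x → ContinuousAt k y := fun y hy => by
    have h1 : x - y ≠ 0 := sub_ne_zero.2 hy.symm
    refine ContinuousAt.mul (ContinuousAt.div (cont_ei.continuousAt.comp
      (continuousAt_const.mul (ContinuousAt.rpow_const (by fun_prop)
        (Or.inl (abs_ne_zero.2 h1))))) (by fun_prop) (by exact_mod_cast h1)) h.c.continuousAt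
  have i1 : IntervalIntegrable k volume (x - 1 / δ) (x - δ) :=
    ContinuousOn.intervalIntegrable_of_Icc (by linarith) fun y hy =>
      (ck y (by linarith [hy.2] : y < x).ne).continuousWithinAt
  have i2 : IntervalIntegrable k volume (x + δ) (x + 1 / δ) :=
    ContinuousOn.intervalIntegrable_of_Icc (by linarith) fun y hy =>
      (ck y (by linarith [hy.1] : x < y).ne').continuousWithinAt
  have e1 : {y | δ < |x - y| ∧ |x - y| < 1 / δ} =
      Ioo (x - 1 / δ) (x - δ) ∪ Ioo (x + δ) (x + 1 / δ) := by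
    ext y
    simp only [mem_ofPred_eq, mem_union, mem_Ioo, lt_abs, abs_lt]
    constructor
    · rintro ⟨a | a, b, c⟩
      · left; constructor <;> linarith
      · right; constructor <;> linarith
    · rintro (⟨a, b⟩ | ⟨a, b⟩)
      · exact ⟨Or.inl (by linarith), by linarith, by linarith⟩
      · exact ⟨Or.inr (by linarith), by linarith, by linarith⟩
  have j1 := i1.comp_sub_left x
  have j2 := i2.comp_add_left x
  simp only [sub_sub_cancel, add_sub_cancel_left] at j1 j2
  rw [Measure.restrict_restrict measurableSet_Ioo,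
    inter_eq_self_of_subset_left (show Ioo δ (1 / δ) ⊆ Ioi 0 from fun y hy => d0.trans hy.1), e1,
    setIntegral_union _ measurableSet_Ioo
    ((intervalIntegrable_iff_integrableOn_Ioo_of_le (by linarith)).1 i1)
    ((intervalIntegrable_iff_integrableOn_Ioo_of_le (by linarith)).1 i2),
    ← integral_Ioc_eq_integral_Ioo, ← integral_Ioc_eq_integral_Ioo, ← integral_Ioc_eq_integral_Ioo,
    ← intervalIntegral.integral_of_le d1,
    ← intervalIntegral.integral_of_le (by linarith), ← intervalIntegral.integral_of_le (by linarith),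
    ← intervalIntegral.integral_comp_sub_left, ← intervalIntegral.integral_comp_add_left,
    ← intervalIntegral.integral_add j1.symm j2]
  · refine intervalIntegral.integral_congr fun t ht => ?_
    rw [uIcc_of_le d1] at ht
    have t0 : 0 < t := d0.trans_le ht.1
    have t1 : (t : ℂ) ≠ 0 := by exact_mod_cast t0.ne'
    simp only [hk, g, sub_sub_cancel, sub_add_cancel_left, abs_neg, abs_of_pos t0,
      Complex.ofReal_neg]
    field_simp
    ring
  · exact disjoint_left.2 fun y a b => by linarith [a.2, b.1]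

lemma Nice.lim (h : Nice f K) : ∃ e ∈ Ioo (0:ℝ) (1 / 2), ∀ m x : ℝ, |m| ≤ 1 → |x| ≤ 1 →
    ‖∫ t in Ioi 0, ei (m * log t) * g f x t‖ - 1 ≤ ‖∫ t in Ioi 0, ei (m / e * t ^ e) * g f x t‖ := by
  have K0 := h.nn
  let d : ℝ → ℝ → ℝ := fun e t =>
    min 2 |e⁻¹ * (t ^ e - 1) - log t| * (Iic 4).indicator (fun _ => 2 * K) t
  have md : ∀ e, Measurable (d e) := fun e =>
    Measurable.mul (by fun_prop) (measurable_const.indicator measurableSet_Iic)
  have i0 : ∀ t : ℝ, 0 ≤ (Iic (4:ℝ)).indicator (fun _ => 2 * K) t :=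
    fun t => indicator_nonneg (fun _ _ => by positivity) t
  have bd : ∀ e t, ‖d e t‖ ≤ 2 * (Iic 4).indicator (fun _ => 2 * K) t := fun e t => by
    rw [Real.norm_of_nonneg (mul_nonneg (by positivity) (i0 t))]
    exact mul_le_mul_of_nonneg_right (min_le_left _ _) (i0 t)
  have T : Tendsto (fun e => ∫ t in Ioi 0, d e t) (𝓝[>] 0) (𝓝 (∫ t in Ioi (0:ℝ), (0:ℝ))) := by
    refine tendsto_integral_filter_of_dominated_convergence _
      (Eventually.of_forall fun e => (md e).aestronglyMeasurable)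
      (Eventually.of_forall fun e => ae_of_all _ (bd e)) ((int_ind 4 (2 * K)).const_mul 2) ?_
    filter_upwards [ae_restrict_mem measurableSet_Ioi] with t ht
    have a1 := (Real.hasStrictDerivAt_const_rpow ht 0).hasDerivAt.tendsto_slope_zero_right
    simp only [zero_add, rpow_zero, one_mul, smul_eq_mul] at a1
    have a2 := (tendsto_const_nhds (x := (2:ℝ)).min (a1.sub_const (log t)).abs).mul_const
      ((Iic 4).indicator (fun _ => 2 * K) t)
    simpa using a2
  rw [integral_zero] at T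
  obtain ⟨e, h1, h2⟩ := ((T.eventually (ge_mem_nhds zero_lt_one)).and
    (Ioo_mem_nhdsGT (show (0:ℝ) < 1 / 2 by norm_num))).exists
  refine ⟨e, h2, fun m x hm hx => ?_⟩
  have e0 := h2.1
  have a1 : ‖∫ t in Ioi 0, ei (m / e * t ^ e) * g f x t‖ =
      ‖∫ t in Ioi 0, ei (m * (e⁻¹ * (t ^ e - 1))) * g f x t‖ := by
    have : ∀ t : ℝ, ei (m / e * t ^ e) * g f x t =
        ei (m / e) * (ei (m * (e⁻¹ * (t ^ e - 1))) * g f x t) := fun t => by
      rw [← mul_assoc, ← ei_add]; congr 2; field_simp; ring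
    simp_rw [this]
    rw [integral_const_mul, norm_mul, norm_ei, one_mul]
  rw [a1, sub_le_iff_le_add', ← sub_le_iff_le_add]
  refine (norm_sub_norm_le _ _).trans (le_trans ?_ h1)
  rw [← integral_sub (h.int x (by fun_prop)) (h.int x (by fun_prop))]
  refine norm_integral_le_of_norm_le (((int_ind 4 (2 * K)).const_mul 2).mono'
    (md e).aestronglyMeasurable (ae_of_all _ (bd e))) ?_
  filter_upwards [ae_restrict_mem measurableSet_Ioi] with t ht
  rw [← sub_mul, norm_mul]
  refine mul_le_mul (le_min ?_ ?_) (h.g_bd (by linarith) ht) (norm_nonneg _) (by positivity)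
  · exact (norm_sub_le _ _).trans (by simp; norm_num)
  · refine (ei_sub _ _).trans ?_
    rw [← mul_sub, abs_mul, abs_sub_comm]
    exact mul_le_of_le_one_left (abs_nonneg _) hm

lemma int2 {G : ℝ → ℂ} (hG : Measurable G) {A B : ℝ} (h1 : ∀ t, 0 < t → ‖G t‖ ≤ A * t ^ 2)
    (h2 : ∀ t, 0 < t → ‖G t‖ ≤ B) (m : ℝ) :
    IntegrableOn (fun t => ei (m * log t) * (G t / t ^ 2)) (Ioi 0) := by
  refine (integrable_inv_one_add_sq.const_mul (A + B)).integrableOn.mono'
    (Measurable.aestronglyMeasurable (by fun_prop)) ?_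
  filter_upwards [ae_restrict_mem measurableSet_Ioi] with t ht
  have t0 : 0 < t := ht
  rw [norm_mul, norm_ei, one_mul, norm_div, norm_pow, Complex.norm_real, Real.norm_of_nonneg t0.le,
    ← div_eq_mul_inv, div_le_div_iff₀ (by positivity) (by positivity)]
  have := mul_le_mul_of_nonneg_right (h2 t t0) (sq_nonneg t)
  nlinarith [h1 t t0]

lemma Nice.ibp (h : Nice f K) {F : ℝ → ℂ} (hF : ∀ y, HasDerivAt F (f y) y) {B : ℝ}
    (hB : ∀ y, ‖F y‖ ≤ B) (m x : ℝ) :
    IntegrableOn (fun t => ei (m * log t) * ((2 * F x - F (x - t) - F (x + t)) / t ^ 2)) (Ioi 0) ∧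
    ‖∫ t in Ioi 0, ei (m * log t) * ((2 * F x - F (x - t) - F (x + t)) / t ^ 2)‖ ≤
      ‖∫ t in Ioi 0, ei (m * log t) * g f x t‖ := by
  have K0 := h.nn
  set G : ℝ → ℂ := fun t => 2 * F x - F (x - t) - F (x + t) with hG
  have dG : ∀ t, HasDerivAt G (f (x - t) - f (x + t)) t := fun t => by
    have a1 := (hF (x - t)).scomp t ((hasDerivAt_id t).const_sub x)
    have a2 := (hF (x + t)).scomp t ((hasDerivAt_id t).const_add x)
    refine ((a1.const_sub (2 * F x)).sub a2).congr_deriv ?_
    simp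
  have cG : Continuous G := continuous_iff_continuousAt.2 fun t => (dG t).continuousAt
  have b1 : ∀ t, 0 < t → ‖G t‖ ≤ 2 * K * t ^ 2 := fun t ht => by
    have := norm_image_sub_le_of_norm_deriv_le_segment' (f := G) (a := 0) (b := t)
      (C := 2 * K * t) (fun s _ => (dG s).hasDerivWithinAt)
      (fun s hs => (h.d x hs.1).trans (by gcongr; exact hs.2.le)) t ⟨ht.le, le_rfl⟩
    have G0 : G 0 = 0 := by simp [hG]; ring
    rw [G0, sub_zero, sub_zero] at this
    linarith
  have b2 : ∀ t, 0 < t → ‖G t‖ ≤ 4 * B := fun t _ => by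
    have := norm_sub_le (2 * F x - F (x - t)) (F (x + t))
    have := norm_sub_le (2 * F x) (F (x - t))
    have : ‖2 * F x‖ = 2 * ‖F x‖ := by simp
    linarith [hB x, hB (x - t), hB (x + t)]
  have i1 := int2 cG.measurable b1 b2 m
  refine ⟨i1, ?_⟩
  let u : ℝ → ℂ := fun t => ei (m * log t) / t
  let u' : ℝ → ℂ := fun t => (Complex.I * m - 1) * (ei (m * log t) / t ^ 2)
  have du : ∀ t ∈ Ioi (0:ℝ), HasDerivAt u (u' t) t := fun t ht => by
    have t0 : 0 < t := ht
    have t1 : (t : ℂ) ≠ 0 := by exact_mod_cast t0.ne'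
    have a1 := (der_ei (m * log t)).scomp t ((hasDerivAt_log t0.ne').const_mul m)
    refine (a1.div (Complex.ofRealCLM.hasDerivAt (x := t)) t1).congr_deriv ?_
    simp [u']
    field_simp
  have nu : ∀ t, 0 < t → ‖(u * G) t‖ = ‖G t‖ / t := fun t ht => by
    simp [u, abs_of_pos ht]; ring
  have H := integral_Ioi_mul_deriv_eq_deriv_mul (a' := 0) (b' := 0) du (fun t _ => dG t)
    ((h.int x (a := fun t => m * log t) (by fun_prop)).congr_fun (fun t _ => by
      simp only [u, g, Pi.mul_apply]; ring) measurableSet_Ioi)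
    ((i1.const_mul (Complex.I * m - 1)).congr (ae_of_all _ fun t => by
      simp only [u', Pi.mul_apply]; ring)) ?_ ?_
  · have e1 : ∫ t in Ioi 0, ei (m * log t) * g f x t =
        ∫ t in Ioi 0, u t * (f (x - t) - f (x + t)) := by
      congr 1; ext t; simp only [u, g]; ring
    have e2 : ∫ t in Ioi 0, u' t * G t =
        (Complex.I * m - 1) * ∫ t in Ioi 0, ei (m * log t) * (G t / t ^ 2) := by
      rw [← integral_const_mul]; congr 1; ext t; simp only [u']; ring
    rw [e1, H, e2, sub_zero, zero_sub, norm_neg, norm_mul]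
    refine le_mul_of_one_le_left (norm_nonneg _) ?_
    simpa using Complex.abs_re_le_norm (Complex.I * m - 1)
  · have : Tendsto (fun t : ℝ => 2 * K * t) (𝓝[>] 0) (𝓝 0) := by
      have : Continuous fun t : ℝ => 2 * K * t := by fun_prop
      simpa using (this.tendsto 0).mono_left nhdsWithin_le_nhds
    refine squeeze_zero_norm' ?_ this
    filter_upwards [self_mem_nhdsWithin] with t ht
    rw [nu t ht, div_le_iff₀ ht]
    linarith [b1 t ht]
  · refine squeeze_zero_norm' ?_ (tendsto_const_nhds (x := 4 * B).div_atTop tendsto_id)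
    filter_upwards [eventually_gt_atTop 0] with t ht
    rw [nu t ht]
    exact div_le_div_of_nonneg_right (b2 t ht) ht.le

end Pool.Agent.H.MP_45ee41_an
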