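import Mathlib
import Pool.Agent.H.MP_45ee41_an.A
namespace Pool.Agent.H.MP_45ee41_an
open Real MeasureTheory Set Filter Topology
open scoped ContDiff

noncomputable def J (m : ℝ) : ℂ :=
  ∫ t in Ioi (0:ℝ), ei (m * log t) * (((1 - cos t : ℝ) : ℂ) / t ^ 2)

lemma c1 (s t : ℝ) : ‖((1 - cos (s * t) : ℝ) : ℂ)‖ ≤ s ^ 2 * t ^ 2 ∧
    ‖((1 - cos (s * t) : ℝ) : ℂ)‖ ≤ 2 := by
  rw [Complex.norm_real, Real.norm_of_nonneg (by linarith [cos_le_one (s * t)])]
  constructor
  · nlinarith [one_sub_sq_div_two_le_cos (x := s * t), sq_nonneg (s * t)]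
  · linarith [neg_one_le_cos (s * t)]

lemma intJ (s m : ℝ) :
    IntegrableOn (fun t => ei (m * log t) * (((1 - cos (s * t) : ℝ) : ℂ) / t ^ 2)) (Ioi 0) :=
  int2 (G := fun t => ((1 - cos (s * t) : ℝ) : ℂ)) (by fun_prop) (fun t _ => (c1 s t).1)
    (fun t _ => (c1 s t).2) m

lemma J_lower : ∃ c > 0, ∃ m0 > 0, m0 ≤ 1 ∧ ∀ m, |m| ≤ m0 → c ≤ ‖J m‖ := by
  have i0 := intJ 1 0
  simp only [one_mul, zero_mul, ei, Complex.ofReal_zero, mul_zero, Complex.exp_zero] at i0
  have cJ : Continuous J := by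
    refine continuous_of_dominated (fun m => Measurable.aestronglyMeasurable (by fun_prop))
      (fun m => ae_of_all _ fun t => ?_) i0.norm (ae_of_all _ fun t => by fun_prop)
    rw [norm_mul, norm_ei, one_mul]
  have nn : ∀ t : ℝ, 0 ≤ (1 - cos t) / t ^ 2 := fun t =>
    div_nonneg (by linarith [cos_le_one t]) (sq_nonneg t)
  have e0 : J 0 = ((∫ t in Ioi (0:ℝ), (1 - cos t) / t ^ 2 : ℝ) : ℂ) := by
    rw [← integral_complex_ofReal]; simp [J, ei]
  have p0 : 0 < ∫ t in Ioi (0:ℝ), (1 - cos t) / t ^ 2 := by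
    rw [setIntegral_pos_iff_support_of_nonneg_ae (ae_of_all _ nn)]
    · refine lt_of_lt_of_le (b := volume (Ioo (0:ℝ) 1)) (by simp) (measure_mono fun t ht => ⟨?_, ht.1⟩)
      have : cos t < cos 0 := cos_lt_cos_of_nonneg_of_le_pi le_rfl (by linarith [ht.2, pi_gt_three]) ht.1
      rw [cos_zero] at this
      exact (div_pos (by linarith) (pow_pos ht.1 2)).ne'
    · refine (i0.re).congr (ae_of_all _ fun t => ?_)
      beta_reduce
      rw [← Complex.ofReal_pow, ← Complex.ofReal_div]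
      exact Complex.ofReal_re _
  have p1 : 0 < ‖J 0‖ := by rw [e0, Complex.norm_real]; exact norm_pos_iff.2 p0.ne'
  obtain ⟨d, hd, h⟩ := Metric.eventually_nhds_iff.1
    (cJ.norm.continuousAt.eventually (lt_mem_nhds (half_lt_self p1)))
  refine ⟨‖J 0‖ / 2, by positivity, min (d / 2) 1, by positivity, min_le_right _ _, fun m hm => ?_⟩
  exact (h (by rw [Real.dist_eq, sub_zero]; linarith [min_le_left (d / 2) 1])).le

lemma scale {s : ℝ} (hs : 0 < s) (m : ℝ) :
    ∫ t in Ioi (0:ℝ), ei (m * log t) * (((1 - cos (s * t) : ℝ) : ℂ) / t ^ 2) =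
      s * ei (-(m * log s)) * J m := by
  have h := integral_comp_mul_left_Ioi
    (fun t : ℝ => ei (m * log t) * (((1 - cos t : ℝ) : ℂ) / t ^ 2)) 0 hs
  have s1 : (s : ℂ) ≠ 0 := by exact_mod_cast hs.ne'
  rw [mul_zero] at h
  have e : (s : ℂ) * ei (-(m * log s)) * J m = (s ^ 2 * ei (-(m * log s))) * (s⁻¹ • J m) := by
    rw [Complex.real_smul]; push_cast; field_simp
  rw [e, J, ← h, ← integral_const_mul]
  refine setIntegral_congr_fun measurableSet_Ioi fun t ht => ?_
  have t0 : 0 < t := ht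
  have t1 : (t : ℂ) ≠ 0 := by exact_mod_cast t0.ne'
  have : ei (m * log t) = ei (-(m * log s)) * ei (m * log (s * t)) := by
    rw [← ei_add, log_mul hs.ne' t0.ne']; congr 1; ring
  simp only [this, Complex.ofReal_mul]
  field_simp

lemma phase {S m0 : ℝ} (hS : 0 < S) (h : 8 * π / 3 / S ≤ m0) (α : ℕ → ℝ) (N : ℕ) :
    ∃ a, 0 ≤ a ∧ a + 8 * π / 3 / (S * 4 ^ N) ≤ m0 ∧ ∀ m ∈ Icc a (a + 8 * π / 3 / (S * 4 ^ N)),
      ∀ k < N, 1 / 2 ≤ cos (α k - m * (S * 4 ^ k)) := by
  induction N with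
  | zero => exact ⟨0, le_rfl, by simpa using h, fun _ _ k hk => absurd hk (Nat.not_lt_zero k)⟩
  | succ N ih =>
    obtain ⟨a, a0, a1, a2⟩ := ih
    set s := S * 4 ^ N with hs
    have s0 : 0 < s := by positivity
    have pi0 := pi_pos
    set n := ⌊(α N - π / 3 - a * s) / (2 * π)⌋
    have n1 : n * (2 * π) ≤ α N - π / 3 - a * s := (le_div_iff₀ (by positivity)).1 (Int.floor_le _)
    have n2 : α N - π / 3 - a * s < (n + 1) * (2 * π) :=
      (div_lt_iff₀ (by positivity)).1 (Int.lt_floor_add_one _)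
    have e : 8 * π / 3 / (S * 4 ^ (N + 1)) = 2 * π / 3 / s := by rw [hs]; field_simp; ring
    set b := (α N - π / 3 - n * (2 * π)) / s with hb
    have b1 : a ≤ b := by rw [hb, le_div_iff₀ s0]; linarith
    have b2 : b + 2 * π / 3 / s ≤ a + 8 * π / 3 / s := by
      rw [hb, ← add_div, div_le_iff₀ s0, add_mul, div_mul_cancel₀ _ s0.ne']; linarith
    rw [e]
    refine ⟨b, a0.trans b1, b2.trans a1, fun m hm k hk => ?_⟩
    rcases (Nat.lt_succ_iff.1 hk).eq_or_lt with rfl | hk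
    · have m1 := hm.1
      have m2 := hm.2
      rw [hb, div_le_iff₀ s0] at m1
      rw [hb, ← add_div, le_div_iff₀ s0] at m2
      rw [← cos_sub_int_mul_two_pi _ n, ← cos_abs, ← cos_pi_div_three]
      refine cos_le_cos_of_nonneg_of_le_pi (abs_nonneg _) (by linarith) (abs_le.2 ⟨?_, ?_⟩)
      · linarith
      · linarith
    · exact a2 m ⟨b1.trans hm.1, hm.2.trans b2⟩ k hk

lemma ortho (n : ℕ → ℕ) (hn : Function.Injective n) (N : ℕ) :
    ∫ x in (-π)..π, ‖∑ k ∈ Finset.range N, ei (n k * x)‖ ^ 2 = 2 * π * N := by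
  have e : ∀ x : ℝ, ‖∑ k ∈ Finset.range N, ei (n k * x)‖ ^ 2 =
      ∑ j ∈ Finset.range N, ∑ k ∈ Finset.range N, cos (((n j : ℝ) - n k) * x) := fun x => by
    rw [Complex.sq_norm, Complex.normSq_apply, Complex.re_sum, Complex.im_sum,
      Finset.sum_mul_sum, Finset.sum_mul_sum, ← Finset.sum_add_distrib]
    refine Finset.sum_congr rfl fun j _ => ?_
    rw [← Finset.sum_add_distrib]
    refine Finset.sum_congr rfl fun k _ => ?_
    rw [ei_re, ei_re, ei_im, ei_im, sub_mul, cos_sub]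
  have o : ∀ j k, ∫ x in (-π)..π, cos (((n j : ℝ) - n k) * x) = if j = k then 2 * π else 0 := by
    intro j k
    split_ifs with h
    · simp [h]; ring
    · have h1 : (n j : ℝ) - n k ≠ 0 := sub_ne_zero.2 (by exact_mod_cast hn.ne h)
      have h2 : sin (((n j : ℝ) - n k) * π) = 0 := by
        exact_mod_cast sin_int_mul_pi ((n j : ℤ) - n k)
      rw [intervalIntegral.integral_comp_mul_left (fun x => cos x) h1, integral_cos, mul_neg,
        sin_neg, h2]
      simp
  simp_rw [e]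
  rw [intervalIntegral.integral_finsetSum fun j _ => Continuous.intervalIntegrable (by fun_prop) _ _]
  rw [Finset.sum_congr rfl (g := fun _ => 2 * π) fun j hj => by
    rw [intervalIntegral.integral_finsetSum
      fun k _ => Continuous.intervalIntegrable (by fun_prop) _ _]
    simp only [o]
    simp [Finset.mem_range.1 hj]]
  simp; ring

end Pool.Agent.H.MP_45ee41_an
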