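import Mathlib
import Pool.Agent.H.MP_45ee41_an.B
namespace Pool.Agent.H.MP_45ee41_an
open Real MeasureTheory Set Filter Topology
open scoped ContDiff

noncomputable def bump : ContDiffBump (0 : ℝ) := ⟨2, 5 / 2, by norm_num, by norm_num⟩

lemma b_one {y : ℝ} (h : |y| ≤ 2) : bump y = 1 :=
  bump.one_of_mem_closedBall (by simpa [bump] using h)

lemma b_zero {y : ℝ} (h : 3 ≤ |y|) : bump y = 0 ∧ deriv bump y = 0 := by
  have : y ∉ tsupport bump := by
    rw [bump.tsupport_eq]; simp [bump]; linarith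
  have h2 := notMem_tsupport_iff_eventuallyEq.1 this
  exact ⟨h2.self_of_nhds, by rw [h2.deriv_eq]; simp⟩

lemma b_c : ContDiff ℝ ∞ bump := bump.contDiff
lemma b_d : ContDiff ℝ ∞ (deriv bump) := (contDiff_infty_iff_deriv.1 b_c).2

lemma b_bd : ∃ D, ∀ y, |deriv bump y| ≤ D :=
  b_d.continuous.bounded_above_of_compact_support bump.hasCompactSupport.deriv

def xi (M k : ℕ) : ℕ := 2 ^ (M * 4 ^ k)
noncomputable def Q (M N : ℕ) (y : ℝ) : ℂ := ∑ k ∈ Finset.range N, ei (xi M k * y)
noncomputable def P (M N : ℕ) (y : ℝ) : ℂ :=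
  ∑ k ∈ Finset.range N, ei (xi M k * y) / (Complex.I * xi M k)
noncomputable def ff (M N : ℕ) (y : ℝ) : ℂ := deriv bump y * P M N y + bump y * Q M N y

variable {M : ℕ}

lemma xi_pos (k : ℕ) : (0 : ℝ) < xi M k := by unfold xi; positivity

lemma xi_inj (hM : 1 ≤ M) : Function.Injective (xi M) := fun a b h =>
  Nat.pow_right_injective (by norm_num : 2 ≤ 4)
    (Nat.eq_of_mul_eq_mul_left hM (Nat.pow_right_injective le_rfl h))

lemma P_bd (hM : 1 ≤ M) (N : ℕ) (y : ℝ) : ‖P M N y‖ ≤ 2 := by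
  refine (norm_sum_le _ _).trans (le_trans (Finset.sum_le_sum fun k _ => ?_)
    (sum_geometric_two_le N))
  rw [norm_div, norm_ei, norm_mul, Complex.norm_I, one_mul, Complex.norm_natCast, one_div_pow]
  refine one_div_le_one_div_of_le (by positivity) ?_
  have : k ≤ M * 4 ^ k := (Nat.lt_pow_self (by norm_num)).le.trans (Nat.le_mul_of_pos_left _ hM)
  exact_mod_cast Nat.pow_le_pow_right (by norm_num : 0 < 2) this

lemma sm_ei : ContDiff ℝ ∞ ei :=
  (Complex.contDiff_exp (𝕜 := ℝ)).comp (contDiff_const.mul Complex.ofRealCLM.contDiff)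

lemma sm_Q (N : ℕ) : ContDiff ℝ ∞ (Q M N) :=
  ContDiff.sum fun _ _ => sm_ei.comp (contDiff_const.mul contDiff_id)
lemma sm_P (N : ℕ) : ContDiff ℝ ∞ (P M N) :=
  ContDiff.sum fun _ _ => (sm_ei.comp (contDiff_const.mul contDiff_id)).div_const _
lemma sm_f (N : ℕ) : ContDiff ℝ ∞ (ff M N) :=
  ((Complex.ofRealCLM.contDiff.comp b_d).mul (sm_P N)).add
    ((Complex.ofRealCLM.contDiff.comp b_c).mul (sm_Q N))

lemma f_zero (N : ℕ) {y : ℝ} (h : 3 ≤ |y|) : ff M N y = 0 := by simp [ff, b_zero h]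

lemma cs_f (N : ℕ) : HasCompactSupport (ff M N) :=
  HasCompactSupport.intro (isCompact_closedBall 0 3) fun y hy =>
    f_zero N (by simpa using (not_le.1 (mt Metric.mem_closedBall.2 hy)).le)

lemma nice_f (N : ℕ) : ∃ K, Nice (ff M N) K := by
  obtain ⟨K, hK⟩ := ContDiff.lipschitzWith_of_hasCompactSupport (cs_f (M := M) N) (sm_f N) (by simp)
  exact ⟨K, (sm_f N).continuous, fun a b => by simpa [dist_eq_norm] using hK.dist_le_mul a b,
    fun y => f_zero N⟩

lemma der_F (N : ℕ) (y : ℝ) : HasDerivAt (fun y => (bump y : ℂ) * P M N y) (ff M N y) y := by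
  have a1 : HasDerivAt (P M N) (Q M N y) y := by
    refine HasDerivAt.fun_sum fun k _ => ?_
    have t1 : (xi M k : ℂ) ≠ 0 := by exact_mod_cast (xi_pos (M := M) k).ne'
    refine (((der_ei (xi M k * y)).scomp y ((hasDerivAt_id y).const_mul (xi M k : ℝ))).div_const
      _).congr_deriv ?_
    simp
    field_simp
  exact ((b_c.differentiable (by simp) y).hasDerivAt.ofReal_comp).fun_mul a1

lemma lower (hM : 1 ≤ M) (N : ℕ) {K : ℝ} (h : Nice (ff M N) K) (m x : ℝ) (hx : |x| ≤ 1)
    (hc : ∀ k < N, 1 / 2 ≤ cos (xi M k * x - m * log (xi M k))) :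
    ‖J m‖ * N - 16 ≤ ‖∫ t in Ioi 0, ei (m * log t) * g (ff M N) x t‖ := by
  have Fb : ∀ y, ‖(bump y : ℂ) * P M N y‖ ≤ 2 := fun y => by
    rw [norm_mul, Complex.norm_real, Real.norm_of_nonneg bump.nonneg]
    nlinarith [P_bd hM N y, bump.le_one (x := y), bump.nonneg (x := y), norm_nonneg (P M N y)]
  obtain ⟨i1, i2⟩ := h.ibp (der_F N) Fb m x
  refine le_trans ?_ i2
  let c : ℕ → ℂ := fun k => 2 * ei (xi M k * x) / (Complex.I * xi M k)
  have e1 : ∀ t : ℝ, ei (m * log t) * ((2 * P M N x - P M N (x - t) - P M N (x + t)) / t ^ 2) =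
      ∑ k ∈ Finset.range N,
        c k * (ei (m * log t) * (((1 - cos (xi M k * t) : ℝ) : ℂ) / t ^ 2)) := fun t => by
    simp only [P, Finset.mul_sum, ← Finset.sum_sub_distrib, Finset.sum_div]
    refine Finset.sum_congr rfl fun k _ => ?_
    have : ei (-(xi M k * t)) + ei (xi M k * t) = 2 * (cos (xi M k * t) : ℝ) := by
      apply Complex.ext
      · simp only [Complex.add_re, ei_re, cos_neg]; simp [-Complex.ofReal_cos]; ring
      · simp only [Complex.add_im, ei_im, sin_neg]; simp [-Complex.ofReal_cos]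
    rw [mul_sub (xi M k : ℝ), mul_add (xi M k : ℝ), sub_eq_add_neg (xi M k * x), ei_add, ei_add,
      Complex.ofReal_sub, Complex.ofReal_one]
    simp only [c]
    linear_combination (-(ei (m * log t) * ei (xi M k * x) / (Complex.I * xi M k) / t ^ 2)) * this
  have i3 : IntegrableOn (fun t : ℝ =>
      ei (m * log t) * ((2 * P M N x - P M N (x - t) - P M N (x + t)) / t ^ 2)) (Ioi 0) := by
    simp_rw [e1]
    exact integrable_finsetSum _ fun k _ => (intJ _ m).const_mul _
  have e2 : ∫ t in Ioi (0:ℝ),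
      ei (m * log t) * ((2 * P M N x - P M N (x - t) - P M N (x + t)) / t ^ 2) =
      2 / Complex.I * J m * ∑ k ∈ Finset.range N, ei (xi M k * x - m * log (xi M k)) := by
    simp_rw [e1]
    rw [integral_finsetSum _ fun k _ => (intJ _ m).const_mul _, Finset.mul_sum]
    refine Finset.sum_congr rfl fun k _ => ?_
    have t1 : (xi M k : ℂ) ≠ 0 := by exact_mod_cast (xi_pos (M := M) k).ne'
    rw [integral_const_mul, scale (xi_pos k), sub_eq_add_neg, ei_add]
    simp only [c, Complex.ofReal_natCast]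
    field_simp
  have e3 : (N : ℝ) / 2 ≤ ‖∑ k ∈ Finset.range N, ei (xi M k * x - m * log (xi M k))‖ := by
    refine le_trans ?_ (Complex.re_le_norm _)
    rw [Complex.re_sum]
    refine le_trans (le_of_eq ?_) (Finset.card_nsmul_le_sum _ _ (1 / 2) fun k hk => ?_)
    · simp; ring
    · rw [ei_re]; exact hc k (Finset.mem_range.1 hk)
  have e4 : ‖J m‖ * N ≤ ‖∫ t in Ioi (0:ℝ),
      ei (m * log t) * ((2 * P M N x - P M N (x - t) - P M N (x + t)) / t ^ 2)‖ := by
    rw [e2, norm_mul, norm_mul, norm_div, Complex.norm_I]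
    have := norm_nonneg (J m)
    simp only [Complex.norm_ofNat, div_one]
    nlinarith
  rw [sub_le_iff_le_add', ← sub_le_iff_le_add]
  refine (sub_le_sub_right e4 _).trans ((norm_sub_norm_le _ _).trans ?_)
  rw [← integral_sub i3 i1]
  refine (norm_integral_le_of_norm_le (integrable_inv_one_add_sq.const_mul 8).integrableOn
    ?_).trans ?_
  · filter_upwards [ae_restrict_mem measurableSet_Ioi] with t ht
    have t0 : 0 < t := ht
    obtain ⟨x1, x2⟩ := abs_le.1 hx
    rw [← mul_sub, ← sub_div, norm_mul, norm_ei, one_mul, b_one (by linarith)]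
    rcases le_total t 1 with h1 | h1
    · rw [b_one (abs_le.2 ⟨by linarith, by linarith⟩), b_one (abs_le.2 ⟨by linarith, by linarith⟩)]
      simp; positivity
    · have q : ∀ y, ‖((bump y : ℝ) : ℂ) * P M N y - P M N y‖ ≤ 2 := fun y => by
        rw [← sub_one_mul, norm_mul, ← Complex.ofReal_one, ← Complex.ofReal_sub, Complex.norm_real,
          Real.norm_eq_abs, abs_sub_comm, abs_of_nonneg (by linarith [bump.le_one (x := y)])]
        nlinarith [P_bd hM N y, bump.le_one (x := y), bump.nonneg (x := y), norm_nonneg (P M N y)]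
      have e : 2 * P M N x - P M N (x - t) - P M N (x + t) - (2 * (((1 : ℝ) : ℂ) * P M N x) -
          bump (x - t) * P M N (x - t) - bump (x + t) * P M N (x + t)) =
          (bump (x - t) * P M N (x - t) - P M N (x - t)) +
            (bump (x + t) * P M N (x + t) - P M N (x + t)) := by push_cast; ring
      rw [e, norm_div, norm_pow, Complex.norm_real, Real.norm_of_nonneg t0.le, ← div_eq_mul_inv,
        div_le_div_iff₀ (by positivity) (by positivity)]
      have := (norm_add_le _ _).trans (add_le_add (q (x - t)) (q (x + t)))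
      calc _ ≤ (2 + 2) * (1 + t ^ 2) := by gcongr
        _ ≤ _ := by nlinarith
  · rw [integral_const_mul, integral_Ioi_inv_one_add_sq, arctan_zero]
    linarith [pi_lt_four]

lemma upper (hM : 1 ≤ M) (N : ℕ) {D : ℝ} (hD : ∀ y, |deriv bump y| ≤ D) :
    ∫ y, ‖ff M N y‖ ^ 2 ≤ 64 * D ^ 2 + 16 * N := by
  have pi3 := pi_gt_three
  have cf := (sm_f (M := M) N).continuous
  have cQ := (sm_Q (M := M) N).continuous
  rw [← setIntegral_eq_integral_of_forall_compl_eq_zero (s := Ioc (-π) π) fun y hy => by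
    rw [f_zero N, norm_zero, zero_pow two_ne_zero]
    rcases not_and_or.1 hy with h | h
    · exact le_abs.2 (Or.inr (by linarith [not_lt.1 h]))
    · exact le_abs.2 (Or.inl (by linarith [not_le.1 h])),
    ← intervalIntegral.integral_of_le (by linarith)]
  refine (intervalIntegral.integral_mono_on (g := fun y => 8 * D ^ 2 + 2 * ‖Q M N y‖ ^ 2)
    (by linarith) (Continuous.intervalIntegrable (by fun_prop) _ _)
    (Continuous.intervalIntegrable (by fun_prop) _ _) fun y _ => ?_).trans ?_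
  · have D0 := (abs_nonneg _).trans (hD 0)
    have a1 : ‖((deriv bump y : ℝ) : ℂ) * P M N y‖ ≤ D * 2 := by
      rw [norm_mul, Complex.norm_real]
      gcongr
      exacts [hD y, P_bd hM N y]
    have a2 : ‖((bump y : ℝ) : ℂ) * Q M N y‖ ≤ ‖Q M N y‖ := by
      rw [norm_mul, Complex.norm_real, Real.norm_of_nonneg bump.nonneg]
      exact mul_le_of_le_one_left (norm_nonneg _) bump.le_one
    have a3 : ‖ff M N y‖ ≤ D * 2 + ‖Q M N y‖ := (norm_add_le _ _).trans (add_le_add a1 a2)
    calc _ ≤ (D * 2 + ‖Q M N y‖) ^ 2 := by gcongr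
      _ ≤ _ := by nlinarith [sq_nonneg (D * 2 - ‖Q M N y‖)]
  · rw [intervalIntegral.integral_add (by simp) (Continuous.intervalIntegrable (by fun_prop) _ _),
      intervalIntegral.integral_const_mul 2, intervalIntegral.integral_const]
    simp only [Q]
    rw [ortho _ (xi_inj hM)]
    have : (0 : ℝ) ≤ N := Nat.cast_nonneg N
    simp only [smul_eq_mul]
    nlinarith [pi_lt_four, sq_nonneg D]

theorem main (C : ℝ) : ∃ e ∈ Ioo (0:ℝ) (1 / 2), ∃ f : SchwartzMap ℝ ℂ, ∃ H : ℝ → ℝ → ℂ,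
    (∀ l x, Tendsto (fun δ : ℝ => ∫ y in {y | δ < |x - y| ∧ |x - y| < 1 / δ},
      ei (l * |x - y| ^ e) / ((x - y : ℝ) : ℂ) * f y) (𝓝[>] 0) (𝓝 (H l x))) ∧
    ENNReal.ofReal C * eLpNorm f 2 volume < eLpNorm (fun x => ⨆ l, ‖H l x‖ₑ) 2 volume := by
  obtain ⟨c, c0, m0, m1, m2, hJ⟩ := J_lower
  obtain ⟨D, hD⟩ := b_bd
  have l2 : 0 < log 2 := log_pos one_lt_two
  obtain ⟨M, hM⟩ := exists_nat_ge (max 1 (8 * π / 3 / m0 / log 2))
  have M1 : 1 ≤ M := by exact_mod_cast (le_max_left _ _).trans hM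
  have M0 : (0 : ℝ) < M := by exact_mod_cast M1
  have M2 : 8 * π / 3 / (M * log 2) ≤ m0 := by
    have := (le_max_right _ _).trans hM
    rw [div_le_iff₀ l2, div_le_iff₀ m1] at this
    rw [div_le_iff₀ (by positivity)]; linarith
  obtain ⟨n, hn⟩ := exists_nat_gt (max (max 1 |D|) ((9 * |C| + 17) / c))
  have n1 : (1 : ℝ) < n := ((le_max_left _ _).trans (le_max_left _ _)).trans_lt hn
  have n2 : |D| < n := ((le_max_right _ _).trans (le_max_left _ _)).trans_lt hn
  have n3 : 9 * |C| + 17 < n * c := (div_lt_iff₀ c0).1 ((le_max_right _ _).trans_lt hn)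
  obtain ⟨K, hK⟩ := nice_f (M := M) (n ^ 2)
  obtain ⟨e, he, hl⟩ := hK.lim
  refine ⟨e, he, (cs_f (n ^ 2)).toSchwartzMap (sm_f (M := M) _), _, fun l x => hK.pv e l x, ?_⟩
  have low : ∀ x ∈ Icc (0:ℝ) 1, ENNReal.ofReal (c * n ^ 2 - 17) ≤
      ⨆ l, ‖∫ t in Ioi 0, ei (l * t ^ e) * g (ff M (n ^ 2)) x t‖ₑ := by
    intro x hx
    have hx' : |x| ≤ 1 := abs_le.2 ⟨by linarith [hx.1], hx.2⟩
    obtain ⟨a, a0, a1, a2⟩ := phase (by positivity) M2 (fun k => xi M k * x) (n ^ 2)
    have p : 0 ≤ 8 * π / 3 / (M * log 2 * 4 ^ n ^ 2) := by have := pi_pos; positivity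
    have a3 : |a| ≤ m0 := by rw [abs_of_nonneg a0]; linarith
    have b1 := lower M1 _ hK a x hx' fun k hk => by
      have := a2 a ⟨le_rfl, by linarith⟩ k hk
      have e : log (xi M k) = M * log 2 * 4 ^ k := by
        simp only [xi]; push_cast; rw [log_pow]; push_cast; ring
      rwa [e]
    have b2 := hl a x (a3.trans m2) hx'
    refine le_trans ?_ (le_iSup _ (a / e))
    rw [← ofReal_norm]
    refine ENNReal.ofReal_le_ofReal ?_
    have := mul_le_mul_of_nonneg_right (hJ a a3) (sq_nonneg (n : ℝ))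
    push_cast at b1
    linarith
  have up : eLpNorm ((cs_f (n ^ 2)).toSchwartzMap (sm_f (M := M) _)) 2 volume ≤
      ENNReal.ofReal (9 * n) := by
    rw [(SchwartzMap.memLp _ 2 volume).eLpNorm_eq_integral_rpow_norm two_ne_zero
      ENNReal.ofNat_ne_top]
    refine ENNReal.ofReal_le_ofReal ?_
    simp only [ENNReal.toReal_ofNat, rpow_ofNat]
    have u := upper M1 (n ^ 2) hD
    have : D ^ 2 ≤ n ^ 2 := by rw [← sq_abs]; gcongr
    rw [← Real.pow_rpow_inv_natCast (show (0:ℝ) ≤ 9 * n by positivity) two_ne_zero]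
    refine Real.rpow_le_rpow (integral_nonneg fun y => by positivity) (u.trans ?_) (by norm_num)
    push_cast
    nlinarith
  calc _ ≤ ENNReal.ofReal |C| * ENNReal.ofReal (9 * n) := by gcongr; exact le_abs_self C
    _ < ENNReal.ofReal (c * n ^ 2 - 17) := by
        rw [← ENNReal.ofReal_mul (abs_nonneg C)]
        have := abs_nonneg C
        exact (ENNReal.ofReal_lt_ofReal_iff_of_nonneg (by positivity)).2 (by nlinarith)
    _ = eLpNorm ((Icc (0:ℝ) 1).indicator fun _ => ENNReal.ofReal (c * n ^ 2 - 17)) 2 volume := by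
        rw [eLpNorm_indicator_const measurableSet_Icc two_ne_zero ENNReal.ofNat_ne_top]; simp
    _ ≤ _ := by
        refine eLpNorm_mono_enorm fun x => ?_
        by_cases hx : x ∈ Icc (0:ℝ) 1
        · rw [indicator_of_mem hx]; exact low x hx
        · rw [indicator_of_notMem hx]; simp

end Pool.Agent.H.MP_45ee41_an
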